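import Mathlib

namespace Pool.Agent.H.MP_eafd9d_co

open Matrix

/-- twelve times the measurement operators: six contexts of the magic square, and one
four-outcome measurement that is not projective -/
def N : Fin 7 → Fin 4 → Matrix (Fin 4) (Fin 4) ℤ :=
  ![![!![3, 3, 3, 3; 3, 3, 3, 3; 3, 3, 3, 3; 3, 3, 3, 3],
      !![3, -3, 3, -3; -3, 3, -3, 3; 3, -3, 3, -3; -3, 3, -3, 3],
      !![3, 3, -3, -3; 3, 3, -3, -3; -3, -3, 3, 3; -3, -3, 3, 3],
      !![3, -3, -3, 3; -3, 3, 3, -3; -3, 3, 3, -3; 3, -3, -3, 3]],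
    ![!![12, 0, 0, 0; 0, 0, 0, 0; 0, 0, 0, 0; 0, 0, 0, 0],
      !![0, 0, 0, 0; 0, 0, 0, 0; 0, 0, 12, 0; 0, 0, 0, 0],
      !![0, 0, 0, 0; 0, 12, 0, 0; 0, 0, 0, 0; 0, 0, 0, 0],
      !![0, 0, 0, 0; 0, 0, 0, 0; 0, 0, 0, 0; 0, 0, 0, 12]],
    ![!![3, 3, 3, -3; 3, 3, 3, -3; 3, 3, 3, -3; -3, -3, -3, 3],
      !![3, -3, 3, 3; -3, 3, -3, -3; 3, -3, 3, 3; 3, -3, 3, 3],
      !![3, 3, -3, 3; 3, 3, -3, 3; -3, -3, 3, -3; 3, 3, -3, 3],
      !![3, -3, -3, -3; -3, 3, 3, 3; -3, 3, 3, 3; -3, 3, 3, 3]],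
    ![!![6, 0, 6, 0; 0, 0, 0, 0; 6, 0, 6, 0; 0, 0, 0, 0],
      !![0, 0, 0, 0; 0, 6, 0, 6; 0, 0, 0, 0; 0, 6, 0, 6],
      !![6, 0, -6, 0; 0, 0, 0, 0; -6, 0, 6, 0; 0, 0, 0, 0],
      !![0, 0, 0, 0; 0, 6, 0, -6; 0, 0, 0, 0; 0, -6, 0, 6]],
    ![!![6, 6, 0, 0; 6, 6, 0, 0; 0, 0, 0, 0; 0, 0, 0, 0],
      !![0, 0, 0, 0; 0, 0, 0, 0; 0, 0, 6, 6; 0, 0, 6, 6],
      !![6, -6, 0, 0; -6, 6, 0, 0; 0, 0, 0, 0; 0, 0, 0, 0],
      !![0, 0, 0, 0; 0, 0, 0, 0; 0, 0, 6, -6; 0, 0, -6, 6]],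
    ![!![6, 0, 0, 6; 0, 0, 0, 0; 0, 0, 0, 0; 6, 0, 0, 6],
      !![0, 0, 0, 0; 0, 6, 6, 0; 0, 6, 6, 0; 0, 0, 0, 0],
      !![6, 0, 0, -6; 0, 0, 0, 0; 0, 0, 0, 0; -6, 0, 0, 6],
      !![0, 0, 0, 0; 0, 6, -6, 0; 0, -6, 6, 0; 0, 0, 0, 0]],
    ![!![0, 0, 0, 0; 0, 8, -4, -4; 0, -4, 8, -4; 0, -4, -4, 8],
      !![8, 0, 0, 0; 0, 0, 0, 0; 0, 0, 0, 0; 0, 0, 0, 0],
      !![2, 2, 2, 2; 2, 2, 2, 2; 2, 2, 2, 2; 2, 2, 2, 2],
      !![2, -2, -2, -2; -2, 2, 2, 2; -2, 2, 2, 2; -2, 2, 2, 2]]]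

def T (v w : Fin 7 × Fin 4) : ℤ := ∑ i : Fin 4, ∑ j : Fin 4, N v.1 v.2 i j * N w.1 w.2 j i

theorem T_symm (v w : Fin 7 × Fin 4) : T v w = T w v := by
  unfold T
  rw [Finset.sum_comm]
  refine Finset.sum_congr rfl fun i _ => Finset.sum_congr rfl fun j _ => mul_comm _ _

/-- compatibility graph -/
def Y : SimpleGraph (Fin 7 × Fin 4) where
  Adj v w := v.1 ≠ w.1 ∧ T v w ≠ 0
  symm := ⟨fun v w h => ⟨h.1.symm, by rw [T_symm]; exact h.2⟩⟩
  loopless := ⟨fun v h => h.1 rfl⟩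

def s1 : Fin 4 → ℤ := ![1, 1, -1, -1]
def s2 : Fin 4 → ℤ := ![1, -1, 1, -1]
def s3 : Fin 4 → ℤ := ![1, -1, -1, 1]
def s4 : Fin 4 → ℤ := ![-1, 1, 1, -1]

theorem tab :
    (∀ a b : Fin 4, s1 a ≠ s1 b → T (0, a) (3, b) = 0) ∧
    (∀ a b : Fin 4, s2 a ≠ s1 b → T (0, a) (4, b) = 0) ∧
    (∀ a b : Fin 4, s3 a ≠ s1 b → T (0, a) (5, b) = 0) ∧
    (∀ a b : Fin 4, s1 a ≠ s2 b → T (1, a) (3, b) = 0) ∧
    (∀ a b : Fin 4, s2 a ≠ s2 b → T (1, a) (4, b) = 0) ∧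
    (∀ a b : Fin 4, s3 a ≠ s2 b → T (1, a) (5, b) = 0) ∧
    (∀ a b : Fin 4, s1 a ≠ s3 b → T (2, a) (3, b) = 0) ∧
    (∀ a b : Fin 4, s2 a ≠ s3 b → T (2, a) (4, b) = 0) ∧
    (∀ a b : Fin 4, s3 a ≠ s4 b → T (2, a) (5, b) = 0) ∧
    (T (6, 0) (1, 0) = 0 ∧ T (6, 0) (0, 0) = 0 ∧ T (6, 0) (2, 3) = 0) ∧
    (∀ b : Fin 4, b ≠ 0 → T (6, 1) (1, b) = 0) ∧
    (∀ b : Fin 4, b ≠ 0 → T (6, 2) (0, b) = 0) ∧
    (∀ b : Fin 4, b ≠ 3 → T (6, 3) (2, b) = 0) := by
  decide +kernel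

section
variable {A : Type*} [Ring A] [Algebra ℝ A] (P : Fin 7 × Fin 4 → A)

def obs (q : Fin 7) (s : Fin 4 → ℤ) : A := ∑ a, s a • P (q, a)

variable {P}

theorem obs_mul (h0 : ∀ q a b, a ≠ b → P (q, a) * P (q, b) = 0)
    (h1 : ∀ q, ∑ a, P (q, a) = 1) (q : Fin 7) (s t : Fin 4 → ℤ) :
    obs P q s * obs P q t = obs P q (fun a => s a * t a) := by
  have hid : ∀ a, P (q, a) * P (q, a) = P (q, a) := by
    intro a
    have : P (q, a) * ∑ b, P (q, b) = P (q, a) := by rw [h1, mul_one]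
    rw [Finset.mul_sum, Finset.sum_eq_single a (fun b _ hb => h0 q a b hb.symm) (by simp)] at this
    exact this
  unfold obs
  rw [Finset.sum_mul]
  refine Finset.sum_congr rfl fun a _ => ?_
  rw [Finset.mul_sum, Finset.sum_eq_single a]
  · rw [smul_mul_smul_comm, hid]
  · intro b _ hb
    rw [smul_mul_smul_comm, h0 q a b hb.symm, smul_zero]
  · simp

theorem obs_cons (h1 : ∀ q, ∑ a, P (q, a) = 1) (q q' : Fin 7) (s t : Fin 4 → ℤ)
    (h : ∀ a b, s a ≠ t b → P (q, a) * P (q', b) = 0) : obs P q s = obs P q' t := by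
  have e1 : obs P q s = ∑ a, ∑ b, s a • (P (q, a) * P (q', b)) := by
    unfold obs
    refine Finset.sum_congr rfl fun a _ => ?_
    rw [← Finset.smul_sum, ← Finset.mul_sum, h1, mul_one]
  have e2 : obs P q' t = ∑ a, ∑ b, t b • (P (q, a) * P (q', b)) := by
    unfold obs
    rw [Finset.sum_comm]
    refine Finset.sum_congr rfl fun b _ => ?_
    rw [← Finset.smul_sum, ← Finset.sum_mul, h1, one_mul]
  rw [e1, e2]
  refine Finset.sum_congr rfl fun a _ => Finset.sum_congr rfl fun b _ => ?_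
  by_cases hab : s a = t b
  · rw [hab]
  · rw [h a b hab, smul_zero, smul_zero]

theorem half {a : A} (n : ℝ) (hn : n ≠ 0) (h : n • a = 0) : a = 0 := by
  have h2 : n⁻¹ • (n • a) = 0 := by rw [h, smul_zero]
  rwa [smul_smul, inv_mul_cancel₀ hn, one_smul] at h2

/-- the Pauli part -/
theorem pauli {x1 x2 z1 z2 e f g Q0 Q1 Q2 Q3 : A}
    (hx1 : x1 * x1 = 1) (hx2 : x2 * x2 = 1)
    (c1 : x1 * z2 = z2 * x1) (c2 : x2 * z1 = z1 * x2)
    (a1 : x1 * z1 = -(z1 * x1)) (a2 : x2 * z2 = -(z2 * x2))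
    (he : (4 : ℝ) • e = (1 + z2) * (1 + z1))
    (ee : e * e = e) (ez1 : e * z1 = e) (ez2 : e * z2 = e) (z1e : z1 * e = e) (z2e : z2 * e = e)
    (hf : (4 : ℝ) • f = 1 + x1 + x2 + x1 * x2) (ff : f * f = f)
    (hg : (4 : ℝ) • g = (1 - x1 * z2) * (1 - x2 * z1))
    (hQ : Q0 + Q1 + Q2 + Q3 = 1) (q11 : Q1 * Q1 = Q1)
    (e0 : e * Q0 = 0) (f0 : f * Q0 = 0)
    (l1 : e * Q1 = Q1) (r1 : Q1 * e = Q1) (l2 : f * Q2 = Q2) (r3 : Q3 * g = Q3) :
    (1 : A) = 0 := by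
  have k1 : e * x1 * e = 0 := by
    apply half 2 (by norm_num)
    have : e * x1 * e = -(e * x1 * e) := by
      calc e * x1 * e = e * (x1 * z1) * e := by rw [mul_assoc, mul_assoc, mul_assoc, z1e]
        _ = -((e * z1) * x1 * e) := by rw [a1]; noncomm_ring
        _ = -(e * x1 * e) := by rw [ez1]
    have h2 : (2 : ℝ) • (e * x1 * e) = e * x1 * e + e * x1 * e := by
      rw [two_smul]
    rw [h2]; nth_rewrite 1 [this]; simp
  have k2 : e * x2 * e = 0 := by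
    apply half 2 (by norm_num)
    have : e * x2 * e = -(e * x2 * e) := by
      calc e * x2 * e = e * (x2 * z2) * e := by rw [mul_assoc, mul_assoc, mul_assoc, z2e]
        _ = -((e * z2) * x2 * e) := by rw [a2]; noncomm_ring
        _ = -(e * x2 * e) := by rw [ez2]
    have h2 : (2 : ℝ) • (e * x2 * e) = e * x2 * e + e * x2 * e := by
      rw [two_smul]
    rw [h2]; nth_rewrite 1 [this]; simp
  have k3 : e * (x1 * x2) * e = 0 := by
    apply half 2 (by norm_num)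
    have : e * (x1 * x2) * e = -(e * (x1 * x2) * e) := by
      calc e * (x1 * x2) * e = e * x1 * (x2 * z1) * e := by
            simp only [mul_assoc, z1e]
        _ = e * (x1 * z1) * x2 * e := by rw [c2]; noncomm_ring
        _ = -((e * z1) * (x1 * x2) * e) := by rw [a1]; noncomm_ring
        _ = -(e * (x1 * x2) * e) := by rw [ez1]
    have h2 : (2 : ℝ) • (e * (x1 * x2) * e) = e * (x1 * x2) * e + e * (x1 * x2) * e := by
      rw [two_smul]
    rw [h2]; nth_rewrite 1 [this]; simp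
  have efe : (4 : ℝ) • (e * f * e) = e := by
    calc (4 : ℝ) • (e * f * e) = e * ((4 : ℝ) • f) * e := by
          rw [mul_smul_comm, smul_mul_assoc]
      _ = e * e * e - e * e * e + e * e + e * x1 * e + e * x2 * e + e * (x1 * x2) * e := by
          rw [hf]; noncomm_ring
      _ = e := by rw [k1, k2, k3, ee]; simp
  have ge : (4 : ℝ) • (g * e) = (2 : ℝ) • e - (4 : ℝ) • (f * e) := by
    have t1 : (4 : ℝ) • (g * e) = e - x1 * e - x2 * e - x1 * x2 * e := by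
      calc (4 : ℝ) • (g * e) = ((4 : ℝ) • g) * e := by rw [smul_mul_assoc]
        _ = e - x1 * (z2 * e) - x2 * (z1 * e) + x1 * (z2 * x2) * (z1 * e) := by
            rw [hg]; noncomm_ring
        _ = e - x1 * e - x2 * e - x1 * (x2 * z2) * e := by
            rw [z1e, z2e, a2]; noncomm_ring
        _ = e - x1 * e - x2 * e - x1 * x2 * (z2 * e) := by noncomm_ring
        _ = _ := by rw [z2e]
    have t2 : (4 : ℝ) • (f * e) = e + x1 * e + x2 * e + x1 * x2 * e := by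
      rw [← smul_mul_assoc, hf]; noncomm_ring
    rw [t1, t2, two_smul]; abel
  have ge' : g * e = (1 / 2 : ℝ) • e - f * e := by
    have : (4 : ℝ) • (g * e - ((1 / 2 : ℝ) • e - f * e)) = 0 := by
      rw [smul_sub, ge]; module
    have h4 := half 4 (by norm_num) this
    exact sub_eq_zero.1 h4
  have efe' : e * f * e = (1 / 4 : ℝ) • e := by
    have : (4 : ℝ) • (e * f * e - (1 / 4 : ℝ) • e) = 0 := by
      rw [smul_sub, efe]; module
    have h4 := half 4 (by norm_num) this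
    exact sub_eq_zero.1 h4
  have ege : e * (g * e) = (1 / 4 : ℝ) • e := by
    rw [ge', mul_sub, mul_smul_comm, ee, ← mul_assoc, efe']; module
  have efge : e * f * (g * e) = -((1 / 8 : ℝ) • e) := by
    rw [ge', mul_sub, mul_smul_comm, efe', ← mul_assoc, mul_assoc e f f, ff, efe']; module
  have v0 : (e - e * f) * Q0 = 0 := by rw [sub_mul, mul_assoc, f0, e0]; simp
  have v2 : (e - e * f) * Q2 = 0 := by rw [sub_mul, mul_assoc, l2]; simp
  have w3 : Q3 * (e - g * e) = 0 := by rw [mul_sub, ← mul_assoc, r3]; simp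
  have vw : (e - e * f) * (e - g * e) = (e - e * f) * Q1 * (e - g * e) := by
    calc (e - e * f) * (e - g * e) = (e - e * f) * (Q0 + Q1 + Q2 + Q3) * (e - g * e) := by
          rw [hQ, mul_one]
      _ = ((e - e * f) * Q0) * (e - g * e) + (e - e * f) * Q1 * (e - g * e) +
          ((e - e * f) * Q2) * (e - g * e) + (e - e * f) * (Q3 * (e - g * e)) := by noncomm_ring
      _ = _ := by rw [v0, v2, w3]; simp
  have lhs : (e - e * f) * (e - g * e) = (3 / 8 : ℝ) • e := by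
    calc (e - e * f) * (e - g * e) = e * e - e * (g * e) - e * f * e + e * f * (g * e) := by
          noncomm_ring
      _ = _ := by rw [ee, ege, efe', efge]; module
  have vq : (e - e * f) * Q1 = (3 / 4 : ℝ) • Q1 := by
    calc (e - e * f) * Q1 = e * Q1 - e * f * (e * Q1) := by rw [l1, sub_mul, l1]
      _ = e * Q1 - (e * f * e) * Q1 := by noncomm_ring
      _ = _ := by rw [efe', smul_mul_assoc, l1]; module
  have qw : Q1 * (e - g * e) = (3 / 4 : ℝ) • Q1 := by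
    calc Q1 * (e - g * e) = Q1 * e - (Q1 * e) * (g * e) := by rw [r1, mul_sub, r1]
      _ = Q1 * e - Q1 * (e * (g * e)) := by noncomm_ring
      _ = _ := by rw [ege, mul_smul_comm, r1]; module
  have hq : Q1 = (2 / 3 : ℝ) • e := by
    rw [lhs, vq, smul_mul_assoc, qw] at vw
    have : (9 : ℝ) • (Q1 - (2 / 3 : ℝ) • e) = 0 := by
      have h16 : (16 : ℝ) • ((3 / 8 : ℝ) • e) = (16 : ℝ) • ((3 / 4 : ℝ) • (3 / 4 : ℝ) • Q1) := by
        rw [vw]
      have : (9 : ℝ) • (Q1 - (2 / 3 : ℝ) • e) =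
          (16 : ℝ) • ((3 / 4 : ℝ) • (3 / 4 : ℝ) • Q1) - (16 : ℝ) • ((3 / 8 : ℝ) • e) := by module
      rw [this, h16, sub_self]
    have h4 := half 9 (by norm_num) this
    exact sub_eq_zero.1 h4
  have e_zero : e = 0 := by
    rw [hq, smul_mul_smul_comm, ee] at q11
    have : (2 : ℝ) • e = 0 := by
      have : (2 : ℝ) • e = (9 : ℝ) • ((2 / 3 : ℝ) • e) - (9 : ℝ) • ((2 / 3 * (2 / 3) : ℝ) • e) := by
        module
      rw [this, q11, sub_self]
    exact half 2 (by norm_num) this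
  rw [e_zero, smul_zero] at he
  have h1 : (1 + z2) * (1 - z1) = 0 := by
    calc (1 + z2) * (1 - z1) = (x1 * x1) * ((1 + z2) * (1 - z1)) := by rw [hx1, one_mul]
      _ = x1 * (x1 + x1 * z2) * (1 - z1) := by noncomm_ring
      _ = x1 * (1 + z2) * (x1 - x1 * z1) := by rw [c1]; noncomm_ring
      _ = x1 * ((1 + z2) * (1 + z1)) * x1 := by rw [a1]; noncomm_ring
      _ = 0 := by rw [← he]; simp
  have h2 : (1 + z2) + (1 + z2) = 0 := by
    calc (1 + z2) + (1 + z2) = (1 + z2) * (1 + z1) + (1 + z2) * (1 - z1) := by noncomm_ring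
      _ = 0 := by rw [← he, h1]; simp
  have h3 : (1 - z2) + (1 - z2) = 0 := by
    calc (1 - z2) + (1 - z2) = (x2 * x2) * ((1 - z2) + (1 - z2)) := by rw [hx2, one_mul]
      _ = x2 * ((x2 - x2 * z2) + (x2 - x2 * z2)) := by noncomm_ring
      _ = x2 * ((1 + z2) + (1 + z2)) * x2 := by rw [a2]; noncomm_ring
      _ = 0 := by rw [h2]; simp
  apply half 4 (by norm_num)
  have : (4 : ℝ) • (1 : A) = ((1 + z2) + (1 + z2)) + ((1 - z2) + (1 - z2)) := by
    module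
  rw [this, h2, h3, add_zero]

theorem no_rep (h1 : ∀ q, ∑ a, P (q, a) = 1)
    (hP : ∀ v w, v ≠ w → ¬ Y.Adj v w → P v * P w = 0) : (1 : A) = 0 := by
  have h0 : ∀ q a b, a ≠ b → P (q, a) * P (q, b) = 0 := fun q a b hab =>
    hP _ _ (fun h => hab (Prod.ext_iff.1 h).2) (fun h => h.1 rfl)
  have hT : ∀ q q' a b, q ≠ q' → T (q, a) (q', b) = 0 → P (q, a) * P (q', b) = 0 :=
    fun q q' a b hq ht => hP _ _ (fun h => hq (Prod.ext_iff.1 h).1) (fun h => h.2 ht)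
  have hT' : ∀ q q' a b, q ≠ q' → T (q, a) (q', b) = 0 → P (q', b) * P (q, a) = 0 :=
    fun q q' a b hq ht => hT _ _ _ _ hq.symm (by rw [T_symm]; exact ht)
  obtain ⟨t1, t2, t3, t4, t5, t6, t7, t8, t9, ⟨u1, u2, -⟩, u4, u5, u6⟩ := tab
  have M := obs_mul h0 h1
  have c1 := obs_cons h1 0 3 s1 s1 fun a b h => hT _ _ _ _ (by decide) (t1 a b h)
  have c2 := obs_cons h1 0 4 s2 s1 fun a b h => hT _ _ _ _ (by decide) (t2 a b h)
  have c3 := obs_cons h1 0 5 s3 s1 fun a b h => hT _ _ _ _ (by decide) (t3 a b h)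
  have c4 := obs_cons h1 1 3 s1 s2 fun a b h => hT _ _ _ _ (by decide) (t4 a b h)
  have c5 := obs_cons h1 1 4 s2 s2 fun a b h => hT _ _ _ _ (by decide) (t5 a b h)
  have c6 := obs_cons h1 1 5 s3 s2 fun a b h => hT _ _ _ _ (by decide) (t6 a b h)
  have c7 := obs_cons h1 2 3 s1 s3 fun a b h => hT _ _ _ _ (by decide) (t7 a b h)
  have c8 := obs_cons h1 2 4 s2 s3 fun a b h => hT _ _ _ _ (by decide) (t8 a b h)
  have c9 := obs_cons h1 2 5 s3 s4 fun a b h => hT _ _ _ _ (by decide) (t9 a b h)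
  have p11 : (fun a => s1 a * s1 a) = fun _ => 1 := by funext a; revert a; decide
  have p22 : (fun a => s2 a * s2 a) = fun _ => 1 := by funext a; revert a; decide
  have p12 : (fun a => s1 a * s2 a) = s3 := by funext a; revert a; decide
  have p21 : (fun a => s2 a * s1 a) = s3 := by funext a; revert a; decide
  have o1 : ∀ q, obs P q (fun _ => 1) = 1 := fun q => by simp [obs, h1]
  have m11 : ∀ q, obs P q s1 * obs P q s1 = 1 := fun q => by rw [M, p11, o1]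
  have m22 : ∀ q, obs P q s2 * obs P q s2 = 1 := fun q => by rw [M, p22, o1]
  have m12 : ∀ q, obs P q s1 * obs P q s2 = obs P q s3 := fun q => by rw [M, p12]
  have m21 : ∀ q, obs P q s2 * obs P q s1 = obs P q s3 := fun q => by rw [M, p21]
  have n4 : obs P 5 s4 = -obs P 5 s3 := by
    simp [obs, Fin.sum_univ_four, s3, s4]; abel
  have hid : ∀ q a, P (q, a) * P (q, a) = P (q, a) := by
    intro q a
    have : P (q, a) * ∑ b, P (q, b) = P (q, a) := by rw [h1, mul_one]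
    rw [Finset.mul_sum, Finset.sum_eq_single a (fun b _ hb => h0 q a b hb.symm) (by simp)] at this
    exact this
  have sup : ∀ (X : A) q a, (∀ b, b ≠ a → X * P (q, b) = 0) → X * P (q, a) = X := by
    intro X q a h
    have : X * ∑ b, P (q, b) = X := by rw [h1, mul_one]
    rwa [Finset.mul_sum, Finset.sum_eq_single a (fun b _ hb => h b hb) (by simp)] at this
  have sup' : ∀ (X : A) q a, (∀ b, b ≠ a → P (q, b) * X = 0) → P (q, a) * X = X := by
    intro X q a h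
    have : (∑ b, P (q, b)) * X = X := by rw [h1, one_mul]
    rwa [Finset.sum_mul, Finset.sum_eq_single a (fun b _ hb => h b hb) (by simp)] at this
  set x1 := obs P 0 s1 with hx1
  set x2 := obs P 0 s2 with hx2
  set z2 := obs P 1 s1 with hz2
  set z1 := obs P 1 s2 with hz1
  have xx1 : x1 * x1 = 1 := m11 0
  have xx2 : x2 * x2 = 1 := m22 0
  have zz1 : z1 * z1 = 1 := m22 1
  have zz2 : z2 * z2 = 1 := m11 1
  have x12 : x1 * x2 = x2 * x1 := by rw [hx1, hx2, m12, m21]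
  have z12 : z2 * z1 = z1 * z2 := by rw [hz1, hz2, m12, m21]
  have ha : x1 * z2 = obs P 2 s1 := by rw [c1, c4, m12, c7]
  have ha' : z2 * x1 = obs P 2 s1 := by rw [c1, c4, m21, c7]
  have hb : x2 * z1 = obs P 2 s2 := by rw [c2, c5, m12, c8]
  have hb' : z1 * x2 = obs P 2 s2 := by rw [c2, c5, m21, c8]
  have hc : (x1 * x2) * (z2 * z1) = -obs P 2 s3 := by
    rw [hx1, hx2, hz1, hz2, m12, m12, c3, c6, m12, c9, n4, neg_neg]
  have a2 : x2 * z2 = -(z2 * x2) := by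
    have e1 : (x1 * z2) * (x2 * z1) = obs P 2 s3 := by rw [ha, hb, m12]
    calc x2 * z2 = (x1 * x1) * x2 * z2 * (z1 * z1) := by rw [xx1, zz1]; simp
      _ = x1 * ((x1 * x2) * (z2 * z1)) * z1 := by noncomm_ring
      _ = -(x1 * ((x1 * z2) * (x2 * z1)) * z1) := by rw [hc, e1]; noncomm_ring
      _ = -((x1 * x1) * z2 * x2 * (z1 * z1)) := by noncomm_ring
      _ = _ := by rw [xx1, zz1]; simp
  have a1 : x1 * z1 = -(z1 * x1) := by
    have e1 : (x2 * z1) * (x1 * z2) = obs P 2 s3 := by rw [ha, hb, m21]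
    rw [x12, z12] at hc
    calc x1 * z1 = (x2 * x2) * x1 * z1 * (z2 * z2) := by rw [xx2, zz2]; simp
      _ = x2 * ((x2 * x1) * (z1 * z2)) * z2 := by noncomm_ring
      _ = -(x2 * ((x2 * z1) * (x1 * z2)) * z2) := by rw [hc, e1]; noncomm_ring
      _ = -((x2 * x2) * z1 * x1 * (z2 * z2)) := by noncomm_ring
      _ = _ := by rw [xx2, zz2]; simp
  have d0 : ∀ q, (4 : ℝ) • P (q, 0) = 1 + obs P q s1 + obs P q s2 + obs P q s3 := by
    intro q
    rw [← h1 q]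
    simp [obs, Fin.sum_univ_four, s1, s2, s3]; module
  have d3 : ∀ q, (4 : ℝ) • P (q, 3) = 1 - obs P q s1 - obs P q s2 + obs P q s3 := by
    intro q
    rw [← h1 q]
    simp [obs, Fin.sum_univ_four, s1, s2, s3]; module
  have r0 : ∀ q (s : Fin 4 → ℤ), s 0 = 1 → P (q, 0) * obs P q s = P (q, 0) := by
    intro q s hs
    unfold obs
    rw [Finset.mul_sum, Finset.sum_eq_single 0]
    · rw [hs, one_smul, hid]
    · intro b _ hb
      rw [mul_smul_comm, h0 q 0 b hb.symm, smul_zero]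
    · simp
  have l0 : ∀ q (s : Fin 4 → ℤ), s 0 = 1 → obs P q s * P (q, 0) = P (q, 0) := by
    intro q s hs
    unfold obs
    rw [Finset.sum_mul, Finset.sum_eq_single 0]
    · rw [hs, one_smul, hid]
    · intro b _ hb
      rw [smul_mul_assoc, h0 q b 0 hb, smul_zero]
    · simp
  refine pauli (x1 := x1) (x2 := x2) (z1 := z1) (z2 := z2) (e := P (1, 0)) (f := P (0, 0))
    (g := P (2, 3)) (Q0 := P (6, 0)) (Q1 := P (6, 1)) (Q2 := P (6, 2)) (Q3 := P (6, 3))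
    xx1 xx2 (by rw [ha, ha']) (by rw [hb, hb']) a1 a2 ?_ (hid _ _) (r0 1 s2 rfl) (r0 1 s1 rfl)
    (l0 1 s2 rfl) (l0 1 s1 rfl) ?_ (hid _ _) ?_ ?_ (hid _ _) (hT' _ _ _ _ (by decide) u1)
    (hT' _ _ _ _ (by decide) u2) ?_ ?_ ?_ ?_
  · rw [d0, ← m12]; noncomm_ring
  · rw [d0, ← m12]
  · rw [d3, ← m12, ha, hb]; noncomm_ring
  · rw [← h1 6, Fin.sum_univ_four]
  · exact sup' _ _ _ fun b hb => hT' _ _ _ _ (by decide) (u4 b hb)
  · exact sup _ _ _ fun b hb => hT _ _ _ _ (by decide) (u4 b hb)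
  · exact sup' _ _ _ fun b hb => hT' _ _ _ _ (by decide) (u5 b hb)
  · exact sup _ _ _ fun b hb => hT _ _ _ _ (by decide) (u6 b hb)

end

end Pool.Agent.H.MP_eafd9d_co
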